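import Pool.Agent.Helper38.Weiss.Api
import Pool.Agent.Helper36.Weiss.U2

/-! MP_6b0aee_an, packet W-M: marker sets -/

open Set Filter Topology MeasureTheory Pool.Agent.Helper38.Weiss

namespace Pool.Agent.Helper36.Weiss

/-- the points whose first visit in `B` is at time `s` -/
def hitT {X : Type*} (F : X → X) (B : Set X) (s : ℕ) : Set X :=
  {x | F^[s] x ∈ B ∧ ∀ j < s, F^[j] x ∉ B}

theorem hit_unique {X : Type*} {F : X → X} {B : Set X} {s s' : ℕ} {x : X}
    (h : x ∈ hitT F B s) (h' : x ∈ hitT F B s') : s = s' := by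
  rcases lt_trichotomy s s' with h1 | h1 | h1
  · exact absurd h.1 (h'.2 s h1)
  · exact h1
  · exact absurd h'.1 (h.2 s' h1)

theorem hit_shift {X : Type*} {F : X → X} {B : Set X} {s j : ℕ} {x : X}
    (h : x ∈ hitT F B (s + j)) : F^[j] x ∈ hitT F B s := by
  refine ⟨?_, fun i hi => ?_⟩
  · rw [← Function.iterate_add_apply]; exact h.1
  · rw [← Function.iterate_add_apply]; exact h.2 (i + j) (by omega)

theorem nf_biUnion {X ι : Type*} [TopologicalSpace X] [MeasurableSpace X] {μ : Measure X}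
    (I : Finset ι) (S : ι → Set X) (h : ∀ i ∈ I, μ (frontier (S i)) = 0) :
    μ (frontier (⋃ i ∈ I, S i)) = 0 := by
  have e : (⋃ i ∈ I, S i) = (⋂ i ∈ I, (S i)ᶜ)ᶜ := by simp
  rw [e, frontier_compl]
  exact nf_biInter I _ (fun i hi => by rw [frontier_compl]; exact h i hi)

theorem nf_preimage {X : Type*} [TopologicalSpace X] [MeasurableSpace X] [BorelSpace X]
    {ν : Measure X} {F : X → X} (hFc : Continuous F) (hF : MeasurePreserving F ν ν) {S : Set X}
    (h : ν (frontier S) = 0) (j : ℕ) : ν (frontier (F^[j] ⁻¹' S)) = 0 := by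
  refine measure_mono_null ((hFc.iterate j).frontier_preimage_subset _) ?_
  rw [(hF.iterate j).measure_preimage isClosed_frontier.measurableSet.nullMeasurableSet]
  exact h

theorem hit_eq {X : Type*} (F : X → X) (B : Set X) (s : ℕ) :
    hitT F B s = F^[s] ⁻¹' B ∩ ⋂ j ∈ Finset.range s, (F^[j] ⁻¹' B)ᶜ := by
  ext x
  simp [hitT]

theorem hit_meas {X : Type*} [MeasurableSpace X] {F : X → X} (hF : Measurable F) {B : Set X}
    (hB : MeasurableSet B) (s : ℕ) : MeasurableSet (hitT F B s) := by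
  rw [hit_eq]
  exact (hF.iterate s hB).inter
    (Finset.measurableSet_biInter _ (fun j _ => (hF.iterate j hB).compl))

theorem hit_nf {X : Type*} [TopologicalSpace X] [MeasurableSpace X] [BorelSpace X]
    {ν : Measure X} {F : X → X} (hFc : Continuous F) (hF : MeasurePreserving F ν ν) {B : Set X}
    (hB : ν (frontier B) = 0) (s : ℕ) : ν (frontier (hitT F B s)) = 0 := by
  rw [hit_eq]
  refine nf_inter (nf_preimage hFc hF hB s) (nf_biInter _ _ fun j _ => ?_)
  rw [frontier_compl]
  exact nf_preimage hFc hF hB j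

theorem hit_anti {X : Type*} [MeasurableSpace X] {ν : Measure X} [IsProbabilityMeasure ν]
    {F : X → X} (hF : MeasurePreserving F ν ν) {B : Set X} (hB : MeasurableSet B) :
    Antitone (fun s => ν.real (hitT F B s)) := by
  refine antitone_nat_of_succ_le (fun s => ?_)
  have h1 : hitT F B (s + 1) ⊆ F ⁻¹' (hitT F B s) := fun x hx => hit_shift (j := 1) hx
  have h2 : ν.real (F ⁻¹' (hitT F B s)) = ν.real (hitT F B s) := by
    rw [measureReal_def, measureReal_def,
      hF.measure_preimage (hit_meas hF.measurable hB s).nullMeasurableSet]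
  rw [← h2]
  exact measureReal_mono h1

theorem hit_zero {X : Type*} (F : X → X) (B : Set X) : hitT F B 0 = B := by
  ext x; simp [hitT]

theorem hit_sum {X : Type*} [MeasurableSpace X] {ν : Measure X} [IsProbabilityMeasure ν]
    {F : X → X} (hF : Ergodic F ν) {B : Set X} (hB : MeasurableSet B) (hB0 : ν B ≠ 0) :
    Tendsto (fun K : ℕ => ∑ s ∈ Finset.range K, ν.real (hitT F B s)) atTop (𝓝 1) := by
  have hFm : Measurable F := hF.measurable
  set Z : Set X := {x | ∀ j, F^[j] x ∉ B} with hZ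
  have hZe : Z = ⋂ j, (F^[j] ⁻¹' B)ᶜ := by ext x; simp [hZ]
  have hZm : MeasurableSet Z := by
    rw [hZe]
    exact MeasurableSet.iInter (fun j => (hFm.iterate j hB).compl)
  have hsub : Z ⊆ F ⁻¹' Z := by
    intro x hx j
    have := hx (j + 1)
    rwa [Function.iterate_succ_apply] at this
  have hZ0 : ν Z = 0 := by
    rcases hF.ae_empty_or_univ_of_ae_le_preimage hZm.nullMeasurableSet
      (LE.le.eventuallyLE hsub) with h | h
    · rw [measure_congr h]; simp
    · exfalso
      apply hB0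
      have h1 : ν Zᶜ = 0 := by
        rw [measure_congr h.compl]; simp
      refine measure_mono_null ?_ h1
      intro x hx hxZ
      exact hxZ 0 hx
  have hU : (⋃ s, hitT F B s) = Zᶜ := by
    ext x
    simp only [mem_iUnion, mem_compl_iff, hZ, Set.mem_ofPred_eq]
    push Not
    constructor
    · rintro ⟨s, hs⟩
      exact ⟨s, hs.1⟩
    · intro hex
      classical
      exact ⟨Nat.find hex, Nat.find_spec hex, fun j hj => Nat.find_min hex hj⟩
  have htot : ∑' s, ν (hitT F B s) = 1 := by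
    rw [← measure_iUnion _ (fun s => hit_meas hFm hB s), hU, prob_compl_eq_one_iff hZm]
    · exact hZ0
    · intro s s' hss
      rw [Function.onFun, Set.disjoint_left]
      intro x hx hx'
      exact hss (hit_unique hx hx')
  have h1 := ENNReal.tendsto_nat_tsum (fun s => ν (hitT F B s))
  rw [htot] at h1
  have h2 := (ENNReal.tendsto_toReal ENNReal.one_ne_top).comp h1
  simp only [ENNReal.toReal_one] at h2
  refine h2.congr (fun K => ?_)
  simp only [Function.comp]
  rw [ENNReal.toReal_sum (fun s _ => measure_ne_top ν _)]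
  rfl

theorem double_sum (f : ℕ → ℝ) (N M : ℕ) :
    ∑ m ∈ Finset.range M, ∑ l ∈ Finset.range N, f (m * N + l) = ∑ u ∈ Finset.range (M * N), f u := by
  induction M with
  | zero => simp
  | succ M ih =>
    rw [Finset.sum_range_succ, ih, Nat.add_mul, one_mul, Finset.sum_range_add]

theorem window {t : ℕ → ℝ} (ht : Antitone t) (N M p : ℕ) :
    N * ∑ m ∈ Finset.range M, t ((m + 1) * N + p) ≤ ∑ u ∈ Finset.range (M * N), t (p + u) := by
  rw [← double_sum (fun u => t (p + u)), Finset.mul_sum]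
  refine Finset.sum_le_sum (fun m _ => ?_)
  calc (N : ℝ) * t ((m + 1) * N + p) = ∑ _l ∈ Finset.range N, t ((m + 1) * N + p) := by simp
    _ ≤ _ := by
      refine Finset.sum_le_sum (fun l hl => ht ?_)
      rw [Finset.mem_range] at hl
      rw [add_mul, one_mul]
      omega

theorem marker {X : Type*} [TopologicalSpace X] [MeasurableSpace X] [BorelSpace X]
    (ν : Measure X) [IsProbabilityMeasure ν] (F : X → X) (hFc : Continuous F) (hF : Ergodic F ν)
    (hsmall : ∀ ε > 0, ∃ B : Set X, MeasurableSet B ∧ ν (frontier B) = 0 ∧ ν B ≠ 0 ∧ ν B < ε)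
    (G : ℕ → Set X) (hG : ∀ T, MeasurableSet (G T)) (hGf : ∀ T, ν (frontier (G T)) = 0)
    (hG1 : Tendsto (fun T => ν (G T)) atTop (𝓝 1)) (ε : ℝ) (hε : 0 < ε) (hε1 : ε ≤ 1) (γ : ℝ)
    (hγ : 0 < γ) (r₀ : ℕ) :
    ∃ r N : ℕ, r₀ ≤ r ∧ r < N ∧ ε / 4 * N ≤ r ∧ ∃ Y D : Set X, MeasurableSet Y ∧
      MeasurableSet D ∧ ν (frontier Y) = 0 ∧ ν (frontier D) = 0 ∧
      (∀ x ∈ D, (∀ j < r, F^[j] x ∈ Y) ∧ F^[r] x ∈ G (N - r)) ∧
      (∀ x ∈ D, ∀ j, 0 < j → j < N → F^[j] x ∉ D) ∧
      (ν Y).toReal ≤ ε ∧ 1 - γ ≤ N * (ν D).toReal := by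
  have hFm : Measurable F := hF.measurable
  have hFp : MeasurePreserving F ν ν := hF.toMeasurePreserving
  -- choice of r
  have hG2 : Tendsto (fun T => ν.real (G T)) atTop (𝓝 1) := by
    have := (ENNReal.tendsto_toReal ENNReal.one_ne_top).comp hG1
    rw [ENNReal.toReal_one] at this
    exact this
  have hev : ∀ᶠ T in atTop, 1 - γ / 4 < ν.real (G T) :=
    hG2.eventually (lt_mem_nhds (by linarith))
  obtain ⟨r₁, hr₁⟩ := eventually_atTop.mp hev
  obtain ⟨r, hrr0, hr1, hrr1⟩ : ∃ r : ℕ, r₀ ≤ r ∧ 1 ≤ r ∧ r₁ ≤ r :=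
    ⟨r₀ + 1 + r₁, by omega, by omega, by omega⟩
  have hr1' : (1 : ℝ) ≤ r := by exact_mod_cast hr1
  obtain ⟨N, hN1, hN2⟩ : ∃ N : ℕ, 2 * (r : ℝ) / ε ≤ N ∧ (N : ℝ) < 2 * r / ε + 1 :=
    ⟨⌈2 * (r : ℝ) / ε⌉₊, Nat.le_ceil _, Nat.ceil_lt_add_one (by positivity)⟩
  have hN3 : 2 * (r : ℝ) ≤ ε * N := by
    rw [div_le_iff₀ hε] at hN1; linarith
  have hN0 : (0 : ℝ) ≤ N := Nat.cast_nonneg N
  have hN4 : 2 * r ≤ N := by
    have : 2 * (r : ℝ) ≤ N := by nlinarith
    exact_mod_cast this
  have hNpos : (0 : ℝ) < N := by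
    have : 0 < N := by omega
    exact_mod_cast this
  have hN5 : ε / 4 * N ≤ r := by
    have h1 : ε * N < 2 * r + ε := by
      have := mul_lt_mul_of_pos_left hN2 hε
      rw [mul_add, mul_one, mul_div_cancel₀ _ hε.ne'] at this
      exact this
    nlinarith
  -- choice of B
  obtain ⟨B, hB, hBf, hB0, hBs⟩ := hsmall (ENNReal.ofReal (γ / (8 * N)))
    (by rw [gt_iff_lt, ENNReal.ofReal_pos]; positivity)
  have hBr : ν.real B ≤ γ / (8 * N) := by
    rw [measureReal_def]
    exact ENNReal.toReal_le_of_le_ofReal (by positivity) hBs.le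
  set t : ℕ → ℝ := fun s => ν.real (hitT F B s) with ht
  have htanti : Antitone t := hit_anti hFp hB
  have ht0 : ∀ s, 0 ≤ t s := fun s => measureReal_nonneg
  have hsum := hit_sum hF hB hB0
  have hmono : Monotone (fun K : ℕ => ∑ s ∈ Finset.range K, t s) := by
    refine monotone_nat_of_le_succ (fun K => ?_)
    rw [Finset.sum_range_succ]
    linarith [ht0 K]
  have hle1 : ∀ K : ℕ, ∑ s ∈ Finset.range K, t s ≤ 1 := fun K => hmono.ge_of_tendsto hsum K
  have hev2 : ∀ᶠ K : ℕ in atTop, 1 - γ / 8 < ∑ s ∈ Finset.range K, t s :=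
    hsum.eventually (lt_mem_nhds (by linarith))
  obtain ⟨K₁, hK₁⟩ := eventually_atTop.mp hev2
  set M := K₁ with hM
  have hbigsum : 1 - γ / 8 < ∑ s ∈ Finset.range ((M + 2) * N), t s := by
    apply hK₁
    have : 1 ≤ N := by omega
    nlinarith
  -- the runs
  set Run : ℕ → Set X := fun l => ⋃ m ∈ Finset.range M, hitT F B ((m + 2) * N + l) with hRun
  have hRunM : ∀ l, MeasurableSet (Run l) := fun l =>
    Finset.measurableSet_biUnion _ (fun m _ => hit_meas hFm hB _)
  have hRunf : ∀ l, ν (frontier (Run l)) = 0 := fun l =>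
    nf_biUnion _ _ (fun m _ => hit_nf hFc hFp hBf _)
  have hRunr : ∀ l, ν.real (Run l) = ∑ m ∈ Finset.range M, t ((m + 2) * N + l) := by
    intro l
    rw [hRun]
    simp only
    rw [measureReal_biUnion_finset]
    · intro m _ m' _ hmm
      rw [Function.onFun, Set.disjoint_left]
      intro x hx hx'
      have h1 := hit_unique hx hx'
      have h2 : (m + 2) * N = (m' + 2) * N := by omega
      have h3 := Nat.eq_of_mul_eq_mul_right (by omega) h2
      omega
    · exact fun m _ => hit_meas hFm hB _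
  have hRunsum : 1 - 3 * γ / 8 ≤ ∑ l ∈ Finset.range N, ν.real (Run l) := by
    have e1 : ∑ l ∈ Finset.range N, ν.real (Run l) =
        ∑ u ∈ Finset.range (M * N), t (2 * N + u) := by
      rw [← double_sum (fun u => t (2 * N + u)), Finset.sum_comm]
      refine Finset.sum_congr rfl (fun l _ => ?_)
      rw [hRunr]
      refine Finset.sum_congr rfl (fun m _ => ?_)
      congr 1
      ring
    have e2 : ∑ s ∈ Finset.range ((M + 2) * N), t s =
        ∑ s ∈ Finset.range (2 * N), t s + ∑ u ∈ Finset.range (M * N), t (2 * N + u) := by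
      rw [← Finset.sum_range_add]
      congr 2
      ring
    have e3 : ∑ s ∈ Finset.range (2 * N), t s ≤ 2 * N * (γ / (8 * N)) := by
      calc ∑ s ∈ Finset.range (2 * N), t s ≤ ∑ _s ∈ Finset.range (2 * N), γ / (8 * N) := by
            refine Finset.sum_le_sum (fun s _ => ?_)
            have h1 : t s ≤ t 0 := htanti (Nat.zero_le s)
            have h2 : t 0 = ν.real B := by simp only [ht, hit_zero]
            linarith
        _ = 2 * N * (γ / (8 * N)) := by simp
    have e4 : 2 * N * (γ / (8 * N)) = γ / 4 := by field_simp; ring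
    rw [e1]
    linarith
  set E : Set X := (F^[r] ⁻¹' (G (N - r)))ᶜ with hE
  have hEm : MeasurableSet E := (hFm.iterate r (hG _)).compl
  have hEr : ν.real E ≤ γ / 4 := by
    have h1 : ν.real (F^[r] ⁻¹' (G (N - r))) = ν.real (G (N - r)) := by
      rw [measureReal_def, measureReal_def,
        (hFp.iterate r).measure_preimage (hG _).nullMeasurableSet]
    have h2 : ν.real E = 1 - ν.real (F^[r] ⁻¹' (G (N - r))) := by
      rw [hE, probReal_compl_eq_one_sub (hFm.iterate r (hG _))]
    have h3 := hr₁ (N - r) (by omega)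
    linarith
  have hEsum : ∑ l ∈ Finset.range N, ν.real (Run l ∩ E) ≤ γ / 4 := by
    rw [← measureReal_biUnion_finset]
    · refine le_trans (measureReal_mono ?_) hEr
      intro x hx
      simp only [mem_iUnion] at hx
      obtain ⟨l, -, hx⟩ := hx
      exact hx.2
    · intro l hl l' hl' hne
      rw [Function.onFun, Set.disjoint_left]
      rintro x ⟨hx, -⟩ ⟨hx', -⟩
      simp only [hRun, mem_iUnion] at hx hx'
      obtain ⟨m, -, hm⟩ := hx
      obtain ⟨m', -, hm'⟩ := hx'
      have h1 := hit_unique hm hm'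
      have hl1 : l < N := by simpa using hl
      have hl1' : l' < N := by simpa using hl'
      apply hne
      have h2 := congrArg (· % N) h1
      simpa [Nat.add_mod, Nat.mod_eq_of_lt hl1, Nat.mod_eq_of_lt hl1'] using h2
    · exact fun l _ => (hRunM l).inter hEm
  -- the choice of l
  have hDsum : 1 - γ ≤ ∑ l ∈ Finset.range N, ν.real (Run l ∩ F^[r] ⁻¹' (G (N - r))) := by
    have h1 : ∀ l, ν.real (Run l) = ν.real (Run l ∩ F^[r] ⁻¹' (G (N - r))) +
        ν.real (Run l ∩ E) := by
      intro l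
      rw [hE, ← Set.sdiff_eq]
      exact (measureReal_inter_add_sdiff (hFm.iterate r (hG _)) (measure_ne_top ν _)).symm
    have h2 : ∑ l ∈ Finset.range N, ν.real (Run l) =
        ∑ l ∈ Finset.range N, ν.real (Run l ∩ F^[r] ⁻¹' (G (N - r))) +
        ∑ l ∈ Finset.range N, ν.real (Run l ∩ E) := by
      rw [← Finset.sum_add_distrib]
      exact Finset.sum_congr rfl (fun l _ => h1 l)
    linarith
  obtain ⟨l, hl, hlD⟩ : ∃ l ∈ Finset.range N,
      1 - γ ≤ N * ν.real (Run l ∩ F^[r] ⁻¹' (G (N - r))) := by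
    by_contra hcon
    push Not at hcon
    have h1 : N * ∑ l ∈ Finset.range N, ν.real (Run l ∩ F^[r] ⁻¹' (G (N - r))) <
        ∑ _l ∈ Finset.range N, (1 - γ) := by
      rw [Finset.mul_sum]
      refine Finset.sum_lt_sum_of_nonempty ?_ hcon
      rw [Finset.nonempty_range_iff]
      omega
    rw [Finset.sum_const, Finset.card_range, nsmul_eq_mul] at h1
    have h2 := mul_le_mul_of_nonneg_left hDsum hN0
    linarith
  rw [Finset.mem_range] at hl
  refine ⟨r, N, hrr0, by omega, hN5,
    ⋃ m ∈ Finset.range M, ⋃ j ∈ Finset.range r, hitT F B ((m + 2) * N + l - j),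
    Run l ∩ F^[r] ⁻¹' (G (N - r)), ?_, ?_, ?_, ?_, ?_, ?_, ?_, hlD⟩
  · exact Finset.measurableSet_biUnion _ (fun m _ =>
      Finset.measurableSet_biUnion _ (fun j _ => hit_meas hFm hB _))
  · exact (hRunM l).inter (hFm.iterate r (hG _))
  · exact nf_biUnion _ _ (fun m _ => nf_biUnion _ _ (fun j _ => hit_nf hFc hFp hBf _))
  · exact nf_inter (hRunf l) (nf_preimage hFc hFp (hGf _) r)
  · rintro x ⟨hx, hx2⟩
    refine ⟨fun j hj => ?_, hx2⟩
    simp only [hRun, mem_iUnion] at hx ⊢
    obtain ⟨m, hm, hx⟩ := hx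
    refine ⟨m, hm, j, Finset.mem_range.mpr hj, hit_shift ?_⟩
    have e : (m + 2) * N + l - j + j = (m + 2) * N + l := by
      have : N ≤ (m + 2) * N := Nat.le_mul_of_pos_left _ (by omega)
      omega
    rw [e]; exact hx
  · rintro x ⟨hx, -⟩ j hj hjN ⟨hx', -⟩
    simp only [hRun, mem_iUnion] at hx hx'
    obtain ⟨m, -, hx⟩ := hx
    obtain ⟨m', -, hx'⟩ := hx'
    have h0 : N ≤ (m + 2) * N := Nat.le_mul_of_pos_left _ (by omega)
    have e : (m + 2) * N + l - j + j = (m + 2) * N + l := by omega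
    rw [← e] at hx
    have h1 := hit_unique (hit_shift hx) hx'
    have h2 : (m + 2) * N = (m' + 2) * N + j := by omega
    have h3 := congrArg (· % N) h2
    simp [Nat.mod_eq_of_lt hjN] at h3
    omega
  · change ν.real _ ≤ ε
    have h1 : ∀ j ∈ Finset.range r,
        N * ∑ m ∈ Finset.range M, t ((m + 2) * N + l - j) ≤ 1 := by
      intro j hj
      rw [Finset.mem_range] at hj
      have e : ∀ m, (m + 2) * N + l - j = (m + 1) * N + (N + l - j) := by
        intro m
        rw [add_mul, add_mul]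
        omega
      simp only [e]
      refine (window htanti N M (N + l - j)).trans ?_
      have h2 : ∑ s ∈ Finset.range ((N + l - j) + M * N), t s =
          ∑ s ∈ Finset.range (N + l - j), t s +
          ∑ u ∈ Finset.range (M * N), t ((N + l - j) + u) := Finset.sum_range_add _ _ _
      have h3 := hle1 ((N + l - j) + M * N)
      have h4 : 0 ≤ ∑ s ∈ Finset.range (N + l - j), t s := Finset.sum_nonneg (fun s _ => ht0 s)
      linarith
    have h5 : ν.real (⋃ m ∈ Finset.range M, ⋃ j ∈ Finset.range r,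
        hitT F B ((m + 2) * N + l - j)) ≤
        ∑ m ∈ Finset.range M, ∑ j ∈ Finset.range r, t ((m + 2) * N + l - j) := by
      refine (measureReal_biUnion_finset_le _ _).trans ?_
      refine Finset.sum_le_sum (fun m _ => ?_)
      exact measureReal_biUnion_finset_le _ _
    rw [Finset.sum_comm] at h5
    have h6 : N * ∑ j ∈ Finset.range r, ∑ m ∈ Finset.range M, t ((m + 2) * N + l - j) ≤ r := by
      rw [Finset.mul_sum]
      calc _ ≤ ∑ _j ∈ Finset.range r, (1 : ℝ) := Finset.sum_le_sum h1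
        _ = r := by simp
    have h7 : (N : ℝ) * ν.real (⋃ m ∈ Finset.range M, ⋃ j ∈ Finset.range r,
        hitT F B ((m + 2) * N + l - j)) ≤ N * ε := by
      calc _ ≤ (N : ℝ) * ∑ j ∈ Finset.range r, ∑ m ∈ Finset.range M,
            t ((m + 2) * N + l - j) := mul_le_mul_of_nonneg_left h5 hN0
        _ ≤ r := h6
        _ ≤ N * ε := by linarith
    exact le_of_mul_le_mul_left h7 hNpos

end Pool.Agent.Helper36.Weiss
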