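import Mathlib

/-! Uniform frequencies for uniquely ergodic maps. -/

open Set Filter Topology MeasureTheory

namespace Pool.Agent.Helper36.Weiss

/-- The empirical measure of an orbit piece. -/
noncomputable def emp {X : Type*} [MeasurableSpace X] (F : X → X) (T : ℕ) (x : X) : Measure X :=
  (T : ENNReal)⁻¹ • ∑ t ∈ Finset.range T, Measure.dirac (F^[t] x)

theorem emp_apply {X : Type*} [MeasurableSpace X] [MeasurableSingletonClass X] (F : X → X) (T : ℕ)
    (x : X) (A : Set X) :
    emp F T x A = (T : ENNReal)⁻¹ * (Nat.card {t : Fin T // F^[t] x ∈ A} : ENNReal) := by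
  classical
  simp only [emp, Measure.smul_apply, Measure.coe_finsetSum, Finset.sum_apply,
    Measure.dirac_apply, smul_eq_mul]
  congr 1
  rw [Nat.card_eq_fintype_card, Fintype.card_subtype, Finset.card_filter, Finset.sum_range]
  push_cast
  refine Finset.sum_congr rfl fun t _ => ?_
  by_cases h : F^[(t : ℕ)] x ∈ A
  · simp [h]
  · simp [h]

theorem emp_prob {X : Type*} [MeasurableSpace X] (F : X → X) {T : ℕ} (hT : 0 < T)
    (x : X) : IsProbabilityMeasure (emp F T x) := by
  constructor
  simp only [emp, Measure.smul_apply, Measure.coe_finsetSum, Finset.sum_apply,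
    measure_univ, smul_eq_mul, Finset.sum_const, Finset.card_range, nsmul_eq_mul, mul_one]
  exact ENNReal.inv_mul_cancel (by exact_mod_cast hT.ne') (ENNReal.natCast_ne_top T)

theorem emp_integral {X : Type*} [MeasurableSpace X] [MeasurableSingletonClass X] (F : X → X)
    (T : ℕ) (x : X) (f : X → ℝ) (hf : ∀ y : X, Integrable f (Measure.dirac y)) :
    ∫ y, f y ∂(emp F T x) = (T : ℝ)⁻¹ * ∑ t ∈ Finset.range T, f (F^[t] x) := by
  rw [emp, integral_smul_measure, integral_finsetSum_measure (fun i _ => hf _)]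
  simp [integral_dirac]

theorem uniform_freq {X : Type*} [MetricSpace X] [CompactSpace X] [MeasurableSpace X]
    [BorelSpace X] {F : X → X} (hF : Continuous F) {μ : Measure X} [IsProbabilityMeasure μ]
    (hinv : MeasurePreserving F μ μ)
    (huniq : ∀ ν : Measure X, IsProbabilityMeasure ν → MeasurePreserving F ν ν → ν = μ)
    {A : Set X} (hA : μ (frontier A) = 0) {δ : ℝ} (hδ : 0 < δ) :
    ∃ N : ℕ, ∀ T ≥ N, ∀ x : X,
      |(Nat.card {t : Fin T // F^[t] x ∈ A} : ℝ) - (μ A).toReal * T| ≤ δ * T := by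
  by_contra hcon
  push Not at hcon
  have hch : ∀ k : ℕ, ∃ T : ℕ, k + 1 ≤ T ∧ ∃ x : X,
      δ * T < |(Nat.card {t : Fin T // F^[t] x ∈ A} : ℝ) - (μ A).toReal * T| := by
    intro k
    obtain ⟨T, hT, x, hx⟩ := hcon (k + 1)
    exact ⟨T, hT, x, hx⟩
  choose T hT x hx using hch
  have hTpos : ∀ k, 0 < T k := fun k => (Nat.succ_pos k).trans_le (hT k)
  let ν : ℕ → ProbabilityMeasure X := fun k => ⟨emp F (T k) (x k), emp_prob F (hTpos k) (x k)⟩
  let U : Ultrafilter ℕ := Ultrafilter.of atTop
  have hU : (U : Filter ℕ) ≤ atTop := Ultrafilter.of_le atTop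
  obtain ⟨νl, -, hνl⟩ := (isCompact_univ (X := ProbabilityMeasure X)).ultrafilter_le_nhds
    (U.map ν) (by simp)
  have hlim : Tendsto ν U (𝓝 νl) := hνl
  have hint : ∀ f : BoundedContinuousFunction X ℝ, ∀ y : X, Integrable f (Measure.dirac y) :=
    fun f y => f.integrable _
  have hlim' := ProbabilityMeasure.tendsto_iff_forall_integral_tendsto.1 hlim
  -- invariance
  have hinvl : ∀ f : BoundedContinuousFunction X ℝ,
      ∫ y, f (F y) ∂(νl : Measure X) = ∫ y, f y ∂(νl : Measure X) := by
    intro f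
    let g : BoundedContinuousFunction X ℝ := f.compContinuous ⟨F, hF⟩
    have h1 := hlim' g
    have h2 := hlim' f
    have h3 := h1.sub h2
    have h4 : Tendsto (fun k => ∫ ω, g ω ∂(ν k : Measure X) - ∫ ω, f ω ∂(ν k : Measure X)) U
        (𝓝 0) := by
      have h5 : ∀ k, ‖∫ ω, g ω ∂(ν k : Measure X) - ∫ ω, f ω ∂(ν k : Measure X)‖ ≤
          (2 * ‖f‖) * (1 / ((k : ℝ) + 1)) := by
        intro k
        have e1 : ∫ ω, g ω ∂(ν k : Measure X) = (T k : ℝ)⁻¹ *
            ∑ t ∈ Finset.range (T k), f (F^[t + 1] (x k)) := by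
          change ∫ ω, g ω ∂(emp F (T k) (x k)) = _
          rw [emp_integral F (T k) (x k) g (hint g)]
          congr 1
          refine Finset.sum_congr rfl fun t _ => ?_
          change f (F (F^[t] (x k))) = _
          rw [Function.iterate_succ_apply']
        have e2 : ∫ ω, f ω ∂(ν k : Measure X) = (T k : ℝ)⁻¹ *
            ∑ t ∈ Finset.range (T k), f (F^[t] (x k)) := by
          change ∫ ω, f ω ∂(emp F (T k) (x k)) = _
          rw [emp_integral F (T k) (x k) f (hint f)]
        rw [e1, e2, ← mul_sub, ← Finset.sum_sub_distrib,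
          Finset.sum_range_sub (fun t => f (F^[t] (x k)))]
        rw [norm_mul, norm_inv, Real.norm_natCast]
        have b1 : ‖f (F^[T k] (x k)) - f (F^[0] (x k))‖ ≤ 2 * ‖f‖ := by
          calc ‖f (F^[T k] (x k)) - f (F^[0] (x k))‖ ≤ ‖f (F^[T k] (x k))‖ + ‖f (F^[0] (x k))‖ :=
                norm_sub_le _ _
            _ ≤ ‖f‖ + ‖f‖ := add_le_add (f.norm_coe_le_norm _) (f.norm_coe_le_norm _)
            _ = 2 * ‖f‖ := by ring
        have b2 : (T k : ℝ)⁻¹ ≤ 1 / ((k : ℝ) + 1) := by
          rw [one_div]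
          have : ((k : ℝ) + 1) ≤ T k := by exact_mod_cast hT k
          exact inv_anti₀ (by positivity) this
        calc (T k : ℝ)⁻¹ * ‖f (F^[T k] (x k)) - f (F^[0] (x k))‖
            ≤ (1 / ((k : ℝ) + 1)) * (2 * ‖f‖) := mul_le_mul b2 b1 (norm_nonneg _) (by positivity)
          _ = (2 * ‖f‖) * (1 / ((k : ℝ) + 1)) := by ring
      refine squeeze_zero_norm h5 ?_
      have h6 : Tendsto (fun k : ℕ => (2 * ‖f‖) * (1 / ((k : ℝ) + 1))) atTop
          (𝓝 ((2 * ‖f‖) * 0)) := tendsto_one_div_add_atTop_nhds_zero_nat.const_mul _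
      rw [mul_zero] at h6
      exact h6.mono_left hU
    have h7 := tendsto_nhds_unique h3 h4
    exact sub_eq_zero.1 h7
  have hmap : (νl : Measure X).map F = νl := by
    have hp : IsProbabilityMeasure ((νl : Measure X).map F) :=
      Measure.isProbabilityMeasure_map hF.measurable.aemeasurable
    refine ext_of_forall_integral_eq_of_IsFiniteMeasure fun f => ?_
    rw [integral_map hF.measurable.aemeasurable f.continuous.aestronglyMeasurable]
    exact hinvl f
  have hνμ : (νl : Measure X) = μ := huniq νl inferInstance ⟨hF.measurable, hmap⟩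
  have hport := ProbabilityMeasure.tendsto_measure_of_null_frontier_of_tendsto' hlim
    (E := A) (by rw [hνμ]; exact hA)
  rw [hνμ] at hport
  have hreal : Tendsto (fun k => ((ν k : Measure X) A).toReal) U (𝓝 (μ A).toReal) :=
    (ENNReal.tendsto_toReal (measure_ne_top μ A)).comp hport
  have hclose := hreal.eventually (Metric.ball_mem_nhds (μ A).toReal hδ)
  obtain ⟨k, hk⟩ := hclose.exists
  rw [Real.dist_eq] at hk
  have hval : ((ν k : Measure X) A).toReal =
      (T k : ℝ)⁻¹ * (Nat.card {t : Fin (T k) // F^[t] (x k) ∈ A} : ℝ) := by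
    change (emp F (T k) (x k) A).toReal = _
    rw [emp_apply, ENNReal.toReal_mul, ENNReal.toReal_inv, ENNReal.toReal_natCast,
      ENNReal.toReal_natCast]
  rw [hval] at hk
  have hTk : (0 : ℝ) < T k := by exact_mod_cast hTpos k
  have h8 := hx k
  have h9 : |(Nat.card {t : Fin (T k) // F^[t] (x k) ∈ A} : ℝ) - (μ A).toReal * T k| =
      |(T k : ℝ)⁻¹ * (Nat.card {t : Fin (T k) // F^[t] (x k) ∈ A} : ℝ) - (μ A).toReal| * T k := by
    rw [← abs_of_pos hTk, ← abs_mul, abs_of_pos hTk]
    congr 1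
    field_simp
  rw [h9] at h8
  have := mul_lt_mul_of_pos_right hk hTk
  linarith

end Pool.Agent.Helper36.Weiss
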